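import Pool.Agent.W868.FI.Stms

/-! Project FI, part RES: resampling the values at self-determined sites. -/

set_option autoImplicit false

open MeasureTheory Set

namespace Pool.Agent.W571.FI

open Pool.Agent.W868.FI

section

variable {ι A : Type} [MeasurableSpace A] (α : Measure A) [IsProbabilityMeasure α]

open Classical in
/-- resampling on a fixed set of coordinates -/
noncomputable def rs (S : Set ι) (p : (ι → A) × (ι → A)) : ι → A :=
  fun g => if g ∈ S then p.2 g else p.1 g

theorem rs_meas (S : Set ι) : Measurable (rs (A := A) S) := by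
  refine measurable_pi_iff.2 fun g => ?_
  unfold rs
  by_cases h : g ∈ S
  · simp only [h, if_true]
    exact (measurable_pi_apply g).comp measurable_snd
  · simp only [h, if_false]
    exact (measurable_pi_apply g).comp measurable_fst

theorem iid_box (K : Finset ι) (t : ι → Set A) (ht : ∀ i ∈ K, MeasurableSet (t i)) :
    iid ι α (Set.pi (K : Set ι) t) = ∏ i ∈ K, α (t i) :=
  Measure.infinitePi_pi (μ := fun _ : ι => α) ht

theorem rs_map (S : Set ι) :
    ((iid ι α).prod (iid ι α)).map (rs S) = iid ι α := by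
  classical
  refine Measure.eq_infinitePi _ fun K t ht => ?_
  rw [Measure.map_apply (rs_meas S) (MeasurableSet.pi K.countable_toSet fun i _ => ht i)]
  have hset : rs S ⁻¹' (Set.pi (K : Set ι) t) =
      (Set.pi ((K.filter fun g => g ∉ S : Finset ι) : Set ι) t) ×ˢ
      (Set.pi ((K.filter fun g => g ∈ S : Finset ι) : Set ι) t) := by
    ext p
    simp only [Set.mem_preimage, Set.mem_pi, Set.mem_prod, Finset.mem_coe, Finset.mem_filter]
    constructor
    · intro h
      refine ⟨fun i hi => ?_, fun i hi => ?_⟩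
      · have := h i hi.1
        unfold rs at this
        rwa [if_neg hi.2] at this
      · have := h i hi.1
        unfold rs at this
        rwa [if_pos hi.2] at this
    · rintro ⟨h1, h2⟩ i hi
      unfold rs
      by_cases hS : i ∈ S
      · rw [if_pos hS]
        exact h2 i ⟨hi, hS⟩
      · rw [if_neg hS]
        exact h1 i ⟨hi, hS⟩
  rw [hset, Measure.prod_prod, iid_box α _ _ fun i _ => ht i,
    iid_box α _ _ fun i _ => ht i, mul_comm]
  exact Finset.prod_filter_mul_prod_filter_not K (fun g => g ∈ S) fun i => α (t i)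

end

theorem res : S_RES := by
  classical
  intro ι A _ _ α _ s hs hdet
  set T : (ι → A) × (ι → A) → ι → A :=
    fun p : (ι → A) × (ι → A) => fun g => if s g p.1 = true then p.2 g else p.1 g with hT
  have hsm : ∀ g, MeasurableSet {y : ι → A | s g y = true} := fun g =>
    (hs g) (measurableSet_singleton true)
  have hTm : Measurable T := by
    refine measurable_pi_iff.2 fun g => ?_
    exact Measurable.ite (measurable_fst (hsm g)) ((measurable_pi_apply g).comp measurable_snd)
      ((measurable_pi_apply g).comp measurable_fst)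
  refine Measure.eq_infinitePi _ fun K t ht => ?_
  have hbox : MeasurableSet (Set.pi (K : Set ι) t) :=
    MeasurableSet.pi K.countable_toSet fun i _ => ht i
  rw [Measure.map_apply hTm hbox, ← iid_box α K t fun i _ => ht i]
  -- the fibres
  let κ : (ι → A) → Finset ι := fun y => K.filter fun g => s g y = true
  have hκm : ∀ S₀ : Finset ι, MeasurableSet {y | κ y = S₀} := by
    intro S₀
    have h : {y | κ y = S₀} = ⋂ g : ι, {y | (g ∈ K ∧ s g y = true) ↔ g ∈ S₀} := by
      ext y
      simp only [Set.mem_iInter, Set.mem_ofPred_eq, κ, Finset.ext_iff, Finset.mem_filter]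
    rw [h]
    refine MeasurableSet.iInter fun g => ?_
    by_cases h1 : g ∈ K <;> by_cases h2 : g ∈ S₀
    · have : {y : ι → A | (g ∈ K ∧ s g y = true) ↔ g ∈ S₀} = {y | s g y = true} := by
        ext y; simp [h1, h2]
      rw [this]; exact hsm g
    · have : {y : ι → A | (g ∈ K ∧ s g y = true) ↔ g ∈ S₀} = {y | s g y = true}ᶜ := by
        ext y; simp [h1, h2]
      rw [this]; exact (hsm g).compl
    · have : {y : ι → A | (g ∈ K ∧ s g y = true) ↔ g ∈ S₀} = ∅ := by
        ext y; simp [h1, h2]
      rw [this]; exact MeasurableSet.empty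
    · have : {y : ι → A | (g ∈ K ∧ s g y = true) ↔ g ∈ S₀} = Set.univ := by
        ext y; simp [h1, h2]
      rw [this]; exact MeasurableSet.univ
  have hκK : ∀ y, κ y ∈ K.powerset := fun y => Finset.mem_powerset.2 (Finset.filter_subset _ _)
  -- invariance of the fibres
  have hinv : ∀ (S₀ : Finset ι) (y y' : ι → A), (∀ g, g ∉ S₀ → y g = y' g) → κ y = S₀ →
      κ y' = S₀ := by
    intro S₀ y y' hyy hy
    have h1 := hdet y y' fun g hg => hyy g fun hgS => by
      rw [← hy] at hgS
      have h2 := (Finset.mem_filter.1 hgS).2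
      rw [hg] at h2
      exact Bool.false_ne_true h2
    rw [← hy]
    ext g
    simp only [κ, Finset.mem_filter, h1]
  -- decomposition of a preimage
  have hdec1 : T ⁻¹' (Set.pi (K : Set ι) t) = ⋃ S₀ ∈ K.powerset,
      rs (S₀ : Set ι) ⁻¹' ({y | κ y = S₀} ∩ Set.pi (K : Set ι) t) := by
    ext p
    simp only [Set.mem_iUnion, Set.mem_preimage, Set.mem_inter_iff, Set.mem_ofPred_eq,
      exists_prop]
    constructor
    · intro h
      refine ⟨κ p.1, hκK _, ?_, ?_⟩
      · refine hinv _ p.1 _ ?_ rfl
        intro g hg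
        unfold rs
        rw [if_neg (by simpa using hg)]
      · intro i hi
        have h1 := h i hi
        unfold rs
        by_cases h2 : s i p.1 = true
        · rw [if_pos (Finset.mem_coe.2 (Finset.mem_filter.2 ⟨hi, h2⟩))]
          rw [hT] at h1
          simpa [h2] using h1
        · have h3 : i ∉ ((κ p.1 : Finset ι) : Set ι) := fun h3 =>
            h2 (Finset.mem_filter.1 (Finset.mem_coe.1 h3)).2
          rw [if_neg h3]
          rw [hT] at h1
          simpa [h2] using h1
    · rintro ⟨S₀, -, h1, h2⟩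
      have h3 : κ p.1 = S₀ := by
        refine hinv _ _ p.1 ?_ h1
        intro g hg
        unfold rs
        rw [if_neg (by simpa using hg)]
      intro i hi
      have h4 := h2 i hi
      unfold rs at h4
      rw [hT]
      by_cases h5 : s i p.1 = true
      · rw [if_pos (Finset.mem_coe.2 (by rw [← h3]; exact Finset.mem_filter.2 ⟨hi, h5⟩))] at h4
        simpa [h5] using h4
      · have h7 : i ∉ (S₀ : Set ι) := fun h6 => h5 (by
          rw [← h3] at h6
          exact (Finset.mem_filter.1 (Finset.mem_coe.1 h6)).2)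
        rw [if_neg h7] at h4
        simpa [h5] using h4
  have hdec2 : Set.pi (K : Set ι) t = ⋃ S₀ ∈ K.powerset,
      ({y | κ y = S₀} ∩ Set.pi (K : Set ι) t) := by
    ext y
    simp only [Set.mem_iUnion, Set.mem_inter_iff, Set.mem_ofPred_eq, exists_prop]
    constructor
    · intro h
      exact ⟨κ y, hκK _, rfl, h⟩
    · rintro ⟨S₀, -, -, h⟩
      exact h
  have hm : ∀ S₀, MeasurableSet ({y | κ y = S₀} ∩ Set.pi (K : Set ι) t) := fun S₀ =>
    (hκm S₀).inter hbox
  have e1 : (iid ι α).prod (iid ι α) (T ⁻¹' (Set.pi (K : Set ι) t)) =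
      ∑ S₀ ∈ K.powerset, (iid ι α).prod (iid ι α)
        (rs (S₀ : Set ι) ⁻¹' ({y | κ y = S₀} ∩ Set.pi (K : Set ι) t)) := by
    rw [hdec1, measure_biUnion_finset]
    · intro S₁ _ S₂ _ hne
      rw [Function.onFun, Set.disjoint_left]
      rintro p ⟨h1, -⟩ ⟨h2, -⟩
      have h3 : ∀ S₀ : Finset ι, κ (rs (S₀ : Set ι) p) = S₀ → κ p.1 = S₀ := by
        intro S₀ h
        refine hinv _ _ p.1 ?_ h
        intro g hg
        unfold rs
        rw [if_neg (by simpa using hg)]
      exact hne ((h3 S₁ h1).symm.trans (h3 S₂ h2))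
    · intro S₀ _
      exact rs_meas _ (hm S₀)
  have e2 : iid ι α (Set.pi (K : Set ι) t) =
      ∑ S₀ ∈ K.powerset, iid ι α ({y | κ y = S₀} ∩ Set.pi (K : Set ι) t) := by
    conv_lhs => rw [hdec2]
    rw [measure_biUnion_finset]
    · intro S₁ _ S₂ _ hne
      rw [Function.onFun, Set.disjoint_left]
      rintro y ⟨h1, -⟩ ⟨h2, -⟩
      exact hne (h1.symm.trans h2)
    · intro S₀ _
      exact hm S₀
  rw [e1, e2]
  refine Finset.sum_congr rfl fun S₀ _ => ?_
  rw [← Measure.map_apply (rs_meas _) (hm S₀), rs_map]

end Pool.Agent.W571.FI
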